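import Pool.Agent.Work.MP_db9399_cg_helper46.Pair
import Pool.Agent.Work.MP_db9399_cg.Interface2

/-! # MP_db9399, SPW, block A4 (version 2): codegrees (helper46) -/

set_option autoImplicit false

namespace Pool.Agent.Work.MP_db9399_cg.helper46

open Finset Classical
open Pool.Agent.Work.MP_db9399_all (nb pr DepOnI PackI)
open Pool.Agent.Work.MP_db9399_cg.helper68

universe u

/-- scopes may grow -/
theorem packI_mono {J : Type u} [Fintype J] {M : ℕ} {T : ℝ} {Sc Sc' : Finset J} {W : ℝ}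
    {P : (J → Fin M) → Prop} (h : Sc' ⊆ Sc) (hP : PackI T Sc' W P) : PackI T Sc W P := by
  obtain ⟨κ, hκ, Q, E, h1, h2, h3, h4, h5⟩ := hP
  exact ⟨κ, hκ, Q, E, h1, h2, fun k => (h3 k).trans h, h4, h5⟩

section
variable {V : Type u} [Fintype V]

theorem mem_nb {G : SimpleGraph V} {v w : V} : w ∈ nb G v ↔ G.Adj v w := by simp [nb]

/-- the edges meeting the ball -/
noncomputable def scp (G : SimpleGraph V) (v : V) : Finset (Sym2 V) :=
  (bl G v).biUnion fun y => (nb G y).image fun x => s(y, x)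

theorem scp_mem {G : SimpleGraph V} {v y x : V} (hy : y ∈ bl G v) (hx : G.Adj y x) :
    s(y, x) ∈ scp G v :=
  Finset.mem_biUnion.2 ⟨y, hy, Finset.mem_image.2 ⟨x, mem_nb.2 hx, rfl⟩⟩

theorem scp_card {G : SimpleGraph V} {d : ℕ} (hG : Reg G d) (v : V) :
    (scp G v).card ≤ (d + 1) * d := by
  have h1 : (bl G v).card ≤ d + 1 := by
    have := Finset.card_insert_le v (nb G v)
    rw [hG v] at this
    exact this
  exact (Finset.card_biUnion_le_card_mul _ _ d (fun y _ =>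
    Finset.card_image_le.trans (hG y).le)).trans (Nat.mul_le_mul_right _ h1)

theorem scp_sub (G : SimpleGraph V) (v : V) :
    scp G v ⊆ univ.filter fun e : Sym2 V => ∃ y ∈ e, y ∈ bl G v := by
  intro e he
  obtain ⟨y, hy, h2⟩ := Finset.mem_biUnion.1 he
  obtain ⟨x, -, rfl⟩ := Finset.mem_image.1 h2
  rw [Finset.mem_filter]
  exact ⟨Finset.mem_univ _, y, Sym2.mem_mk_left _ _, hy⟩

omit [Fintype V] in
theorem BB_cZ {G1 : SimpleGraph V} {M : ℕ} {κ : ℝ} {θ : V → V → ℝ} (hθ : ∀ v w, κ / 2 ≤ θ v w)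
    {f : Sym2 V → Fin M} {v w : V} (h : G1.Adj v w) (hf : f s(v, w) ∈ BB M (κ / 2)) :
    cZ G1 θ f v w := by
  refine ⟨h, ?_⟩
  unfold BB at hf
  rw [Finset.mem_filter] at hf
  have h1 : 2 * ((((f s(v, w) : ℕ) / 2 : ℕ)) : ℝ) ≤ ((f s(v, w) : ℕ) : ℝ) := by
    have : 2 * ((f s(v, w) : ℕ) / 2) ≤ (f s(v, w) : ℕ) := Nat.mul_div_le _ _
    exact_mod_cast this
  have h2 : κ / 2 * M ≤ θ v w * M := mul_le_mul_of_nonneg_right (hθ v w) (Nat.cast_nonneg _)
  linarith [hf.2]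

/-- `cdz` is at least the number of pairs of good coins -/
theorem cdz_ge {G1 : SimpleGraph V} {M : ℕ} {κ : ℝ} {θ : V → V → ℝ} (hθ : ∀ v w, κ / 2 ≤ θ v w)
    (f : Sym2 V → Fin M) (v w : V) :
    ∑ y ∈ nb G1 v ∩ nb G1 w, b2 (κ / 2) s(v, y) s(w, y) f ≤ cdz (cZ G1 θ f) v w := by
  unfold cdz
  rw [Finset.card_filter]
  push_cast
  refine le_trans ?_ (Finset.sum_le_sum_of_subset_of_nonneg (Finset.subset_univ (nb G1 v ∩ nb G1 w))
    (fun i _ _ => by split_ifs <;> norm_num))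
  apply Finset.sum_le_sum
  intro y hy
  rw [Finset.mem_inter, mem_nb, mem_nb] at hy
  unfold b2 bi
  by_cases h1 : f s(v, y) ∈ BB M (κ / 2)
  · by_cases h2 : f s(w, y) ∈ BB M (κ / 2)
    · rw [if_pos h1, if_pos h2, if_pos ⟨BB_cZ hθ hy.1 h1, BB_cZ hθ hy.2 h2⟩]
      norm_num
    · rw [if_neg h2, mul_zero]
      split_ifs <;> norm_num
  · rw [if_neg h1, zero_mul]
    split_ifs <;> norm_num

/-- the package depends on the scope only -/
theorem coinP_dep {G G1 : SimpleGraph V} (hle : G1 ≤ G) {d M : ℕ} (a κ : ℝ) (θ : V → V → ℝ) (v : V) :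
    DepOnI (scp G v) (fun f : Sym2 V → Fin M => CoinP G G1 d a κ (cZ G1 θ f) v) := by
  intro f f' hf
  have h1 : ∀ w, cdz (cZ G1 θ f) v w = cdz (cZ G1 θ f') v w := by
    intro w
    unfold cdz
    congr 2
    ext y
    rw [Finset.mem_filter, Finset.mem_filter]
    by_cases hy : G1.Adj v y ∧ G1.Adj w y
    · have h2 : y ∈ bl G v := Finset.mem_insert_of_mem (mem_nb.2 (hle hy.1))
      have h3 : f s(v, y) = f' s(v, y) := by
        rw [Sym2.eq_swap]
        exact hf _ (scp_mem h2 (hle hy.1.symm))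
      have h4 : f s(w, y) = f' s(w, y) := by
        rw [Sym2.eq_swap]
        exact hf _ (scp_mem h2 (hle hy.2.symm))
      unfold cZ
      rw [h3, h4]
    · constructor
      · rintro ⟨-, h5, h6⟩
        exact absurd ⟨h5.1, h6.1⟩ hy
      · rintro ⟨-, h5, h6⟩
        exact absurd ⟨h5.1, h6.1⟩ hy
  show (CoinP G G1 d a κ (cZ G1 θ f) v) = (CoinP G G1 d a κ (cZ G1 θ f') v)
  have h2 : (∑ w ∈ low G d a v, cdz (cZ G1 θ f) v w) = ∑ w ∈ low G d a v, cdz (cZ G1 θ f') v w :=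
    Finset.sum_congr rfl (fun w _ => h1 w)
  apply propext
  constructor
  · intro h
    exact ⟨fun w hw hc => by rw [← h1 w]; exact h.iv w hw hc, by rw [← h2]; exact h.v⟩
  · intro h
    exact ⟨fun w hw hc => by rw [h1 w]; exact h.iv w hw hc, by rw [h2]; exact h.v⟩

omit [Fintype V] in
theorem disj_pairs {G1 : SimpleGraph V} {v w : V} {y y' : V}
    (hy : G1.Adj v y ∧ G1.Adj w y) (hy' : G1.Adj v y' ∧ G1.Adj w y') (hyy : y ≠ y') :
    s(v, y) ≠ s(v, y') ∧ s(v, y) ≠ s(w, y') ∧ s(w, y) ≠ s(v, y') ∧ s(w, y) ≠ s(w, y') := by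
  have h1 : ∀ a, G1.Adj a y → ∀ b, G1.Adj b y → G1.Adj b y' → s(a, y) ≠ s(b, y') := by
    intro a ha b hb hb' h
    rcases Sym2.eq_iff.1 h with ⟨-, h2⟩ | ⟨-, h2⟩
    · exact hyy h2
    · exact hb.ne h2.symm
  exact ⟨h1 v hy.1 v hy.1 hy'.1, h1 v hy.1 w hy.2 hy'.2, h1 w hy.2 v hy.1 hy'.1,
    h1 w hy.2 w hy.2 hy'.2⟩

/-- codegrees -/
theorem pr_iv {G1 : SimpleGraph V} {M : ℕ} (hM : 0 < M) {κ : ℝ} (hκ0 : 0 < κ) (hκ1 : κ ≤ 1) {v w : V}
    (hvw : w ≠ v) {c X : ℝ} (hc : 0 < c) (hcd : c ≤ cdg G1 v w) (hX : X ≤ κ ^ 2 * c / 64) :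
    prI (fun f : Sym2 V → Fin M => ∑ y ∈ nb G1 v ∩ nb G1 w, b2 (κ / 2) s(v, y) s(w, y) f <
      κ ^ 2 / 8 * cdg G1 v w) ≤ Real.exp (-X) := by
  have h0 : 0 < cdg G1 v w := lt_of_lt_of_le hc hcd
  have hne : (nb G1 v ∩ nb G1 w).Nonempty := by
    rw [← Finset.card_pos]
    unfold cdg at h0
    exact_mod_cast h0
  have h1 := low1 (J := Sym2 V) hM (s := κ / 2) (by linarith) (by linarith) (nb G1 v ∩ nb G1 w) hne
    (fun y => s(v, y)) (fun y => s(w, y))
    (fun y _ h => hvw (Sym2.congr_left.1 h).symm)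
    (fun y hy y' hy' hyy => disj_pairs (by
      rw [Finset.mem_inter, mem_nb, mem_nb] at hy
      exact hy) (by
      rw [Finset.mem_inter, mem_nb, mem_nb] at hy'
      exact hy') hyy)
  have h2 : (κ / 2) ^ 2 / 2 * ((nb G1 v ∩ nb G1 w).card : ℝ) = κ ^ 2 / 8 * cdg G1 v w := by
    unfold cdg
    ring
  rw [h2] at h1
  refine h1.trans (Real.exp_le_exp.2 ?_)
  have h3 : (κ / 2) ^ 2 * ((nb G1 v ∩ nb G1 w).card : ℝ) / 16 = κ ^ 2 * cdg G1 v w / 64 := by
    unfold cdg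
    ring
  rw [h3]
  have h4 : κ ^ 2 * c ≤ κ ^ 2 * cdg G1 v w := mul_le_mul_of_nonneg_left hcd (by positivity)
  linarith

/-- the pairs `(w, y)` -/
noncomputable def PW (G G1 : SimpleGraph V) (d : ℕ) (a : ℝ) (v : V) : Finset ((_ : V) × V) :=
  (low G d a v).sigma fun w => nb G1 v ∩ nb G1 w

theorem PW_mem {G G1 : SimpleGraph V} {d : ℕ} {a : ℝ} {v : V} {i : (_ : V) × V} :
    i ∈ PW G G1 d a v ↔ i.1 ∈ low G d a v ∧ G1.Adj v i.2 ∧ G1.Adj i.1 i.2 := by
  unfold PW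
  rw [Finset.mem_sigma, Finset.mem_inter, mem_nb, mem_nb]

theorem PW_card (G G1 : SimpleGraph V) (d : ℕ) (a : ℝ) (v : V) :
    ((PW G G1 d a v).card : ℝ) = ∑ w ∈ low G d a v, cdg G1 v w := by
  unfold PW cdg
  rw [Finset.card_sigma]
  push_cast
  rfl

theorem PW_le {G G1 : SimpleGraph V} {d : ℕ} (hG : Reg G d) (hle : G1 ≤ G) (a : ℝ) (v : V) :
    (PW G G1 d a v).card ≤ d ^ 2 := by
  have h1 : (PW G G1 d a v).card ≤ ((nb G v).sigma fun y => nb G y).card := by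
    apply Finset.card_le_card_of_injOn (fun i => (⟨i.2, i.1⟩ : (_ : V) × V))
    · intro i hi
      have h2 := PW_mem.1 (Finset.mem_coe.1 hi)
      rw [Finset.mem_coe, Finset.mem_sigma, mem_nb, mem_nb]
      exact ⟨hle h2.2.1, (hle h2.2.2).symm⟩
    · intro i _ j _ hij
      have h3 : i.2 = j.2 := congrArg Sigma.fst hij
      have h4 : i.1 = j.1 := by
        have := congrArg (fun p : (_ : V) × V => p.2) hij
        exact this
      exact Sigma.ext h4 (heq_of_eq h3)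
  rw [Finset.card_sigma, Finset.sum_congr rfl (fun y _ => hG y), Finset.sum_const, hG v,
    smul_eq_mul] at h1
  rw [pow_two]
  exact h1

theorem PW_mult {G G1 : SimpleGraph V} {d : ℕ} (hG : Reg G d) (hle : G1 ≤ G) (a : ℝ) (v : V)
    (e : Sym2 V) (S : Finset ((_ : V) × V)) (hS : S ⊆ PW G G1 d a v)
    (hSe : ∀ i ∈ S, s(v, i.2) = e ∨ s(i.1, i.2) = e) : (S.card : ℝ) ≤ d + 2 := by
  have h1 : ((PW G G1 d a v).filter fun i => s(v, i.2) = e).card ≤ d := by
    rcases Finset.eq_empty_or_nonempty ((PW G G1 d a v).filter fun i => s(v, i.2) = e) with h | h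
    · rw [h]
      simp
    · obtain ⟨j, hj⟩ := h
      rw [Finset.mem_filter] at hj
      rw [← hG j.2]
      apply Finset.card_le_card_of_injOn (fun i => i.1)
      · intro i hi
        rw [Finset.mem_coe, Finset.mem_filter] at hi
        have h2 : i.2 = j.2 := by
          have : s(v, i.2) = s(v, j.2) := by rw [hi.2, hj.2]
          exact Sym2.congr_right.1 this
        have h3 := (PW_mem.1 hi.1).2.2
        rw [Finset.mem_coe, mem_nb, ← h2]
        exact (hle h3).symm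
      · intro i hi k hk hik
        rw [Finset.mem_coe, Finset.mem_filter] at hi hk
        have h2 : i.2 = k.2 := by
          have : s(v, i.2) = s(v, k.2) := by rw [hi.2, hk.2]
          exact Sym2.congr_right.1 this
        exact Sigma.ext hik (heq_of_eq h2)
  have h2 : ((PW G G1 d a v).filter fun i => s(i.1, i.2) = e).card ≤ 2 := by
    induction e using Sym2.ind with
    | _ x z =>
      have h3 : ((PW G G1 d a v).filter fun i => s(i.1, i.2) = s(x, z)) ⊆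
          {(⟨x, z⟩ : (_ : V) × V), ⟨z, x⟩} := by
        intro i hi
        rw [Finset.mem_filter] at hi
        rw [Finset.mem_insert, Finset.mem_singleton]
        rcases Sym2.eq_iff.1 hi.2 with ⟨h4, h5⟩ | ⟨h4, h5⟩
        · left
          exact Sigma.ext h4 (heq_of_eq h5)
        · right
          exact Sigma.ext h4 (heq_of_eq h5)
      exact (Finset.card_le_card h3).trans Finset.card_le_two
  have h3 : S.card ≤ d + 2 := by
    have h4 : S ⊆ ((PW G G1 d a v).filter fun i => s(v, i.2) = e) ∪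
          ((PW G G1 d a v).filter fun i => s(i.1, i.2) = e) := by
      intro i hi
      rw [Finset.mem_union, Finset.mem_filter, Finset.mem_filter]
      rcases hSe i hi with h | h
      · exact Or.inl ⟨hS hi, h⟩
      · exact Or.inr ⟨hS hi, h⟩
    exact (Finset.card_le_card h4).trans ((Finset.card_union_le _ _).trans (by omega))
  exact_mod_cast h3

end

/-- polynomials against stretched exponentials -/
theorem grow (k : ℕ) (C : ℝ) {b c : ℝ} (hb : 0 < b) (hc : 0 < c) (hC : 0 < C) :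
    ∀ᶠ x : ℝ in Filter.atTop, Real.exp (-(c * x ^ b)) ≤ 1 / (C * x ^ k) := by
  have h1 := (isLittleO_rpow_exp_pos_mul_atTop (k / b) hc).bound (c := 1 / C) (by positivity)
  filter_upwards [(tendsto_rpow_atTop hb).eventually h1, Filter.eventually_gt_atTop 0] with x hx hx0
  rw [← Real.rpow_mul hx0.le, mul_div_cancel₀ _ hb.ne', Real.norm_eq_abs, Real.norm_eq_abs,
    abs_of_pos (Real.rpow_pos_of_pos hx0 _), abs_of_pos (Real.exp_pos _), Real.rpow_natCast] at hx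
  rw [Real.exp_neg, one_div]
  apply inv_anti₀ (by positivity)
  have h2 : C * x ^ k ≤ C * (1 / C * Real.exp (c * x ^ b)) := mul_le_mul_of_nonneg_left hx hC.le
  have h3 : C * (1 / C * Real.exp (c * x ^ b)) = Real.exp (c * x ^ b) := by
    field_simp
  linarith

theorem num (a : ℝ) (ha : 0 < a) : ∃ d0 : ℕ, ∀ d : ℕ, d0 ≤ d → 3 ≤ d ∧
    Real.exp (-((1 / 128) * (d : ℝ) ^ a)) ≤ 1 / (6 * (d : ℝ) ^ 10) ∧
    Real.exp (-((1 / 24) * (d : ℝ) ^ (1 / 2 : ℝ))) ≤ 1 / (12 * (d : ℝ) ^ 8) := by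
  have h := ((Filter.eventually_ge_atTop (3 : ℝ)).and
    ((grow 10 6 ha (by norm_num : (0 : ℝ) < 1 / 128) (by norm_num)).and
      (grow 8 12 (by norm_num : (0 : ℝ) < 1 / 2) (by norm_num : (0 : ℝ) < 1 / 24) (by norm_num))))
  obtain ⟨d0, hd0⟩ := Filter.eventually_atTop.1 (tendsto_natCast_atTop_atTop.eventually h)
  refine ⟨d0, fun d hd => ?_⟩
  obtain ⟨h1, h2, h3⟩ := hd0 d hd
  exact ⟨by exact_mod_cast h1, h2, h3⟩

/-- A4 -/
theorem stmt_A4 : Stmt_A4.{u} := by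
  intro a m ha ha1
  obtain ⟨d0, hd0⟩ := num a ha
  refine ⟨d0, ?_⟩
  intro V _ G G1 d M κ θ x1 h cc hd hM E v
  obtain ⟨hd3, hn1, hn2⟩ := hd0 d hd
  have hdp : (0 : ℝ) < d := by exact_mod_cast (by omega : 0 < d)
  have hd1 : (1 : ℝ) ≤ d := by exact_mod_cast (by omega : 1 ≤ d)
  have hd3' : (3 : ℝ) ≤ d := by exact_mod_cast hd3
  have hκ0 : 0 < κ := lt_of_lt_of_le (Real.rpow_pos_of_pos hdp _) E.k1
  have hκ1 : κ ≤ 1 := E.k2.trans (Real.rpow_le_one_of_one_le_of_nonpos hd1 (by linarith))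
  have hMp : 0 < M := by
    rw [hM]
    have : 0 < d := by omega
    positivity
  have hκ2 : (d : ℝ) ^ (-(2 * a)) ≤ κ ^ 2 := by
    have h1 : (d : ℝ) ^ (-(2 * a)) = ((d : ℝ) ^ (-a)) ^ 2 := by
      rw [← Real.rpow_natCast, ← Real.rpow_mul hdp.le]
      congr 1
      push_cast
      ring
    rw [h1]
    exact pow_le_pow_left₀ (Real.rpow_nonneg hdp.le _) E.k1 2
  have hvlow : v ∉ low G d a v := by
    unfold low
    rw [Finset.mem_filter]
    rintro ⟨-, h1⟩
    unfold cdg at h1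
    rw [Finset.inter_self, E.reg v] at h1
    have h2 : (d : ℝ) ^ (3 * a) ≤ (d : ℝ) ^ (1 : ℝ) :=
      Real.rpow_le_rpow_of_exponent_le hd1 (by linarith)
    rw [Real.rpow_one] at h2
    linarith
  -- failure of (iv)
  obtain ⟨F1, hF1⟩ : ∃ F1 : V → (Sym2 V → Fin M) → Prop, F1 = fun w f =>
    (w ≠ v ∧ (d : ℝ) ^ (3 * a) / 2 ≤ cdg G1 v w) ∧
      ∑ y ∈ nb G1 v ∩ nb G1 w, b2 (κ / 2) s(v, y) s(w, y) f < κ ^ 2 / 8 * cdg G1 v w := ⟨_, rfl⟩
  obtain ⟨t, ht⟩ : ∃ t : ℝ, t = κ ^ 2 * (d : ℝ) ^ (2 - a) := ⟨_, rfl⟩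
  have ht0 : 0 < t := by
    rw [ht]
    exact mul_pos (by positivity) (Real.rpow_pos_of_pos hdp _)
  obtain ⟨F2, hF2⟩ : ∃ F2 : (Sym2 V → Fin M) → Prop, F2 = fun f =>
    ∑ i ∈ PW G G1 d a v, b2 (κ / 2) s(v, i.2) s(i.1, i.2) f <
      (κ / 2) ^ 2 * (PW G G1 d a v).card - t := ⟨_, rfl⟩
  have hp1 : ∀ w, prI (F1 w) ≤ Real.exp (-((1 / 128) * (d : ℝ) ^ a)) := by
    intro w
    by_cases h : w ≠ v ∧ (d : ℝ) ^ (3 * a) / 2 ≤ cdg G1 v w
    · have h1 := pr_iv (G1 := G1) hMp hκ0 hκ1 h.1 (c := (d : ℝ) ^ (3 * a) / 2)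
        (X := (1 / 128) * (d : ℝ) ^ a) (by
          have := Real.rpow_pos_of_pos hdp (3 * a)
          linarith) h.2 (by
          have h2 : (d : ℝ) ^ a = (d : ℝ) ^ (-(2 * a)) * (d : ℝ) ^ (3 * a) := by
            rw [← Real.rpow_add hdp]
            congr 1
            ring
          have h3 : (d : ℝ) ^ a ≤ κ ^ 2 * (d : ℝ) ^ (3 * a) := by
            rw [h2]
            exact mul_le_mul_of_nonneg_right hκ2 (Real.rpow_nonneg hdp.le _)
          linarith)
      refine (prI_mono ?_).trans h1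
      intro f hf
      rw [hF1] at hf
      exact hf.2
    · have h1 : prI (F1 w) ≤ prI (fun _ : Sym2 V → Fin M => False) := by
        apply prI_mono
        intro f hf
        rw [hF1] at hf
        exact h hf.1
      have h2 : prI (fun _ : Sym2 V → Fin M => False) = 0 := by
        unfold prI pr
        simp
      rw [h2] at h1
      exact h1.trans (Real.exp_pos _).le
  have hp2 : prI F2 ≤ 2 * Real.exp (-((1 / 24) * (d : ℝ) ^ (1 / 2 : ℝ))) := by
    have h1 := low2 (J := Sym2 V) hMp (s := κ / 2) (by linarith) (by linarith) (PW G G1 d a v)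
      (fun i => s(v, i.2)) (fun i => s(i.1, i.2)) (by
        intro i hi h
        have h2 := (PW_mem.1 hi).1
        rw [← Sym2.congr_left.1 h] at h2
        exact hvlow h2) (D := d + 2) (N := (d : ℝ) ^ 2) (t := t) (by positivity)
      (fun e S hS hSe => PW_mult E.reg E.sub a v e S hS hSe) (by exact_mod_cast PW_le E.reg E.sub a v) (by positivity)
      ht0.le
    rw [hF2]
    refine h1.trans ?_
    apply mul_le_mul_of_nonneg_left _ (by norm_num)
    apply Real.exp_le_exp.2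
    have h2 : (d : ℝ) ^ (7 / 2 : ℝ) ≤ t ^ 2 := by
      have h3 : (d : ℝ) ^ (7 / 4 : ℝ) ≤ t := by
        have h4 : (d : ℝ) ^ (7 / 4 : ℝ) ≤ (d : ℝ) ^ (-(2 * a)) * (d : ℝ) ^ (2 - a) := by
          rw [← Real.rpow_add hdp]
          apply Real.rpow_le_rpow_of_exponent_le hd1
          linarith
        refine h4.trans ?_
        rw [ht]
        exact mul_le_mul_of_nonneg_right hκ2 (Real.rpow_nonneg hdp.le _)
      have h5 : (d : ℝ) ^ (7 / 2 : ℝ) = ((d : ℝ) ^ (7 / 4 : ℝ)) ^ 2 := by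
        rw [← Real.rpow_natCast, ← Real.rpow_mul hdp.le]
        congr 1
        norm_num
      rw [h5]
      exact pow_le_pow_left₀ (Real.rpow_nonneg hdp.le _) h3 2
    have h3 : (d : ℝ) ^ (7 / 2 : ℝ) = (d : ℝ) ^ (1 / 2 : ℝ) * (d : ℝ) ^ 3 := by
      rw [← Real.rpow_natCast, ← Real.rpow_add hdp]
      congr 1
      norm_num
    have h4 : (0 : ℝ) < 2 * ((d + 2) * (2 * (d : ℝ) ^ 2)) := by positivity
    have h5 : (1 / 24) * (d : ℝ) ^ (1 / 2 : ℝ) ≤ t ^ 2 / (2 * ((d + 2) * (2 * (d : ℝ) ^ 2))) := by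
      rw [le_div_iff₀ h4]
      have h6 : (0 : ℝ) ≤ (d : ℝ) ^ (1 / 2 : ℝ) := Real.rpow_nonneg hdp.le _
      have h7 : 2 * ((d + 2) * (2 * (d : ℝ) ^ 2)) ≤ 24 * (d : ℝ) ^ 3 := by
        have h8 : (d : ℝ) + 2 ≤ 3 * d := by linarith
        have h9 : (0 : ℝ) ≤ (d : ℝ) ^ 2 := by positivity
        nlinarith
      have h10 := mul_le_mul_of_nonneg_left h7 h6
      rw [h3] at h2
      linarith
    have h6 : -t ^ 2 / (2 * ((d + 2) * (2 * (d : ℝ) ^ 2))) =
        -(t ^ 2 / (2 * ((d + 2) * (2 * (d : ℝ) ^ 2)))) := by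
      rw [neg_div]
    rw [h6]
    linarith
  apply packI_mono (scp_sub G v)
  apply packI_one (p := 1 / (3 * (d : ℝ) ^ 8)) (s := (d + 1) * d) (by positivity)
    (coinP_dep E.sub a κ θ v)
  · have h1 : (nb G v).Nonempty := by
      rw [← Finset.card_pos, E.reg v]
      omega
    obtain ⟨y, hy⟩ := h1
    exact ⟨_, scp_mem (Finset.mem_insert_self v _) (mem_nb.1 hy)⟩
  · exact_mod_cast scp_card E.reg v
  · show prI (fun f : Sym2 V → Fin M => ¬ CoinP G G1 d a κ (cZ G1 θ f) v) ≤ _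
    have h1 : prI (fun f : Sym2 V → Fin M => ¬ CoinP G G1 d a κ (cZ G1 θ f) v) ≤
        prI (fun f => ∃ w ∈ (nb G v).biUnion (nb G), F1 w f) + prI F2 := by
      apply prI_or
      intro f hf
      by_contra hcon
      push Not at hcon
      obtain ⟨hc1, hc2⟩ := hcon
      apply hf
      constructor
      · intro w hw hcw
        have h0 : 0 < cdg G1 v w := by
          have := Real.rpow_pos_of_pos hdp (3 * a)
          linarith
        have h2 : w ∈ (nb G v).biUnion (nb G) := by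
          have h3 : (nb G1 v ∩ nb G1 w).Nonempty := by
            rw [← Finset.card_pos]
            unfold cdg at h0
            exact_mod_cast h0
          obtain ⟨y, hy⟩ := h3
          rw [Finset.mem_inter, mem_nb, mem_nb] at hy
          exact Finset.mem_biUnion.2 ⟨y, mem_nb.2 (E.sub hy.1), mem_nb.2 (E.sub hy.2).symm⟩
        have h3 := hc1 w h2
        rw [hF1] at h3
        have h4 : ¬ (∑ y ∈ nb G1 v ∩ nb G1 w, b2 (κ / 2) s(v, y) s(w, y) f <
            κ ^ 2 / 8 * cdg G1 v w) := fun h => h3 ⟨⟨hw, hcw⟩, h⟩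
        exact (not_lt.1 h4).trans (cdz_ge E.th1 f v w)
      · rw [hF2] at hc2
        have h3 := not_lt.1 hc2
        have h4 : ∑ i ∈ PW G G1 d a v, b2 (κ / 2) s(v, i.2) s(i.1, i.2) f ≤
            ∑ w ∈ low G d a v, cdz (cZ G1 θ f) v w := by
          unfold PW
          rw [Finset.sum_sigma]
          exact Finset.sum_le_sum (fun w _ => cdz_ge E.th1 f v w)
        rw [PW_card] at h3
        have h5 : (0 : ℝ) ≤ ∑ w ∈ low G d a v, cdg G1 v w :=
          Finset.sum_nonneg (fun w _ => Nat.cast_nonneg _)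
        rw [ht] at h3
        have h6 : 0 ≤ κ ^ 2 * ∑ w ∈ low G d a v, cdg G1 v w := by positivity
        linarith
    have h2 : prI (fun f : Sym2 V → Fin M => ∃ w ∈ (nb G v).biUnion (nb G), F1 w f) ≤
        (d : ℝ) ^ 2 * (1 / (6 * (d : ℝ) ^ 10)) := by
      refine (prI_ex ((nb G v).biUnion (nb G)) F1 _ (fun f hf => hf)).trans ?_
      refine (Finset.sum_le_sum (fun w _ => (hp1 w).trans hn1)).trans ?_
      rw [Finset.sum_const, nsmul_eq_mul]
      apply mul_le_mul_of_nonneg_right _ (by positivity)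
      have h3 : ((nb G v).biUnion (nb G)).card ≤ (nb G v).card * d :=
        Finset.card_biUnion_le_card_mul _ _ _ (fun y _ => (E.reg y).le)
      rw [E.reg v, ← pow_two] at h3
      exact_mod_cast h3
    have h3 : (d : ℝ) ^ 2 * (1 / (6 * (d : ℝ) ^ 10)) = 1 / (6 * (d : ℝ) ^ 8) := by
      field_simp
    have h4 : 1 / (3 * (d : ℝ) ^ 8) = 1 / (6 * (d : ℝ) ^ 8) + 2 * (1 / (12 * (d : ℝ) ^ 8)) := by
      field_simp
      norm_num
    rw [h4]
    rw [h3] at h2
    linarith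
  · have h1 : Real.exp (2 * (1 / (d : ℝ) ^ 5) * ((d + 1) * d)) ≤ 3 := by
      have h2 : 2 * (1 / (d : ℝ) ^ 5) * ((d + 1) * d) ≤ 1 := by
        have h3 : 2 * (1 / (d : ℝ) ^ 5) * ((d + 1) * d) = 2 * (d + 1) / (d : ℝ) ^ 4 := by
          field_simp
        rw [h3, div_le_one (by positivity)]
        have h4 : (d : ℝ) ^ 4 = (d : ℝ) ^ 2 * (d : ℝ) ^ 2 := by ring
        have h5 : (9 : ℝ) ≤ (d : ℝ) ^ 2 := by nlinarith
        have h6 : (9 : ℝ) * (d : ℝ) ^ 2 ≤ (d : ℝ) ^ 2 * (d : ℝ) ^ 2 :=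
          mul_le_mul_of_nonneg_right h5 (by positivity)
        rw [h4]
        nlinarith
      have h7 := Real.exp_le_exp.2 h2
      have := Real.exp_one_lt_d9
      linarith
    calc 1 / (3 * (d : ℝ) ^ 8) * Real.exp (2 * (1 / (d : ℝ) ^ 5) * ((d + 1) * d))
        ≤ 1 / (3 * (d : ℝ) ^ 8) * 3 := mul_le_mul_of_nonneg_left h1 (by positivity)
      _ = 1 / (d : ℝ) ^ 8 := by
        field_simp

end Pool.Agent.Work.MP_db9399_cg.helper46
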