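import Pool.Agent.Work.MP_db9399_cg_helper68.TOOL
import Pool.Agent.Work.MP_db9399_px_helper31.PBM

/-! # MP_db9399, SPW, block A4: products of two coins (helper46) -/

set_option autoImplicit false

namespace Pool.Agent.Work.MP_db9399_cg.helper46

open Finset Classical
open Pool.Agent.Work.MP_db9399_all (pr DepOnI PackI)
open Pool.Agent.Work.MP_db9399_en (ex)
open Pool.Agent.Work.MP_db9399_cg.helper68

universe u v

variable {J : Type u} [Fintype J] {M : ℕ}

/-- probability in the product space -/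
noncomputable def prI (E : (J → Fin M) → Prop) : ℝ := pr E

theorem prI_mono {E F : (J → Fin M) → Prop} (h : ∀ ω, E ω → F ω) : prI E ≤ prI F := pr_mono h

theorem prI_ex {κ : Type v} (I : Finset κ) (E : κ → (J → Fin M) → Prop)
    (F : (J → Fin M) → Prop) (h : ∀ ω, F ω → ∃ i ∈ I, E i ω) : prI F ≤ ∑ i ∈ I, prI (E i) :=
  pr_ex' I E F h

theorem prI_or {D E F : (J → Fin M) → Prop} (h : ∀ ω, D ω → E ω ∨ F ω) : prI D ≤ prI E + prI F :=
  (pr_mono h).trans (pr_or E F)

/-- coins below the threshold -/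
noncomputable def BB (M : ℕ) (s : ℝ) : Finset (Fin M) := univ.filter fun x => ((x : ℕ) : ℝ) < s * M

theorem BB_card (M : ℕ) {s : ℝ} (hs1 : s ≤ 1) : s * M ≤ ((BB M s).card : ℝ) := by
  have h1 : ⌈s * M⌉₊ ≤ M := by
    rw [Nat.ceil_le]
    have : (0 : ℝ) ≤ M := Nat.cast_nonneg M
    nlinarith
  have h2 : ⌈s * M⌉₊ ≤ (BB M s).card := by
    have h3 : (univ : Finset (Fin ⌈s * M⌉₊)).card ≤ (BB M s).card := by
      apply Finset.card_le_card_of_injOn (fun i => Fin.castLE h1 i)
      · intro i _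
        unfold BB
        rw [Finset.coe_filter]
        refine ⟨Finset.mem_univ _, ?_⟩
        have h4 : (i : ℕ) < ⌈s * M⌉₊ := i.2
        exact Nat.lt_ceil.1 h4
      · intro i _ j _ hij
        exact Fin.castLE_injective h1 hij
    simpa using h3
  exact (Nat.le_ceil _).trans (by exact_mod_cast h2)

/-- indicator -/
noncomputable def bi (s : ℝ) (e : J) (f : J → Fin M) : ℝ := if f e ∈ BB M s then 1 else 0

omit [Fintype J] in
theorem bi_nonneg (s : ℝ) (e : J) (f : J → Fin M) : 0 ≤ bi s e f := by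
  unfold bi
  split_ifs <;> norm_num

omit [Fintype J] in
theorem bi_le (s : ℝ) (e : J) (f : J → Fin M) : bi s e f ≤ 1 := by
  unfold bi
  split_ifs <;> norm_num

omit [Fintype J] in
theorem bi_dep (s : ℝ) (e : J) {Q : Finset J} (he : e ∈ Q) : DepOnI Q (bi (M := M) s e) := by
  intro f f' hf
  unfold bi
  rw [hf e he]

theorem bi_ex {s : ℝ} (hM : 0 < M) (hs1 : s ≤ 1) (e : J) : s ≤ ex (bi (M := M) s e) := by
  have h1 := ex_coord (J := J) (M := M) e (fun i => if i ∈ BB M s then (1 : ℝ) else 0)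
  have h2 : ex (bi (M := M) s e) = ex (fun f : J → Fin M => if f e ∈ BB M s then (1 : ℝ) else 0) :=
    rfl
  rw [h2, h1]
  have h3 : ∑ i : Fin M, (if i ∈ BB M s then (1 : ℝ) else 0) = ((BB M s).card : ℝ) := by
    rw [Finset.sum_ite_mem, Finset.univ_inter, Finset.sum_const, nsmul_eq_mul, mul_one]
  rw [h3, le_div_iff₀ (by exact_mod_cast hM)]
  exact BB_card M hs1

/-- both coins -/
noncomputable def b2 (s : ℝ) (e e' : J) (f : J → Fin M) : ℝ := bi s e f * bi s e' f

omit [Fintype J] in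
theorem b2_nonneg (s : ℝ) (e e' : J) (f : J → Fin M) : 0 ≤ b2 s e e' f :=
  mul_nonneg (bi_nonneg _ _ _) (bi_nonneg _ _ _)

omit [Fintype J] in
theorem b2_le (s : ℝ) (e e' : J) (f : J → Fin M) : b2 s e e' f ≤ 1 :=
  mul_le_one₀ (bi_le _ _ _) (bi_nonneg _ _ _) (bi_le _ _ _)

omit [Fintype J] in
theorem b2_dep (s : ℝ) (e e' : J) : DepOnI {e, e'} (b2 (M := M) s e e') := by
  intro f f' hf
  unfold b2
  rw [bi_dep s e (Q := {e, e'}) (by simp) f f' hf, bi_dep s e' (Q := {e, e'}) (by simp) f f' hf]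

theorem b2_ex {s : ℝ} (hM : 0 < M) (hs0 : 0 ≤ s) (hs1 : s ≤ 1) {e e' : J} (he : e ≠ e') :
    s ^ 2 ≤ ex (b2 (M := M) s e e') := by
  have h1 := Pool.Agent.Work.MP_db9399_en.ex_mul hM {e} (bi (M := M) s e) (bi (M := M) s e')
    (bi_dep s e (by simp)) (bi_dep s e' (by simpa using he.symm))
  have h2 : ex (b2 (M := M) s e e') = ex (bi (M := M) s e) * ex (bi (M := M) s e') := h1
  rw [h2, pow_two]
  exact mul_le_mul (bi_ex hM hs1 e) (bi_ex hM hs1 e') hs0 (hs0.trans (bi_ex hM hs1 e))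

/-- disjoint pairs -/
theorem low1 (hM : 0 < M) {s : ℝ} (hs0 : 0 < s) (hs1 : s ≤ 1) {ι : Type v} (I : Finset ι)
    (hI : I.Nonempty) (e e' : ι → J) (he : ∀ i ∈ I, e i ≠ e' i)
    (hd : ∀ i ∈ I, ∀ i' ∈ I, i ≠ i' → e i ≠ e i' ∧ e i ≠ e' i' ∧ e' i ≠ e i' ∧ e' i ≠ e' i') :
    prI (fun f : J → Fin M => ∑ i ∈ I, b2 s (e i) (e' i) f < s ^ 2 / 2 * I.card) ≤
      Real.exp (-(s ^ 2 * I.card / 16)) := by
  obtain ⟨μ, hμ⟩ : ∃ μ : ℝ, μ = ∑ i ∈ I, ex (b2 (M := M) s (e i) (e' i)) := ⟨_, rfl⟩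
  have hI0 : (0 : ℝ) < I.card := by exact_mod_cast hI.card_pos
  have h1 : s ^ 2 * I.card ≤ μ := by
    rw [hμ, mul_comm, ← nsmul_eq_mul]
    exact Finset.card_nsmul_le_sum I _ _ (fun i hi => b2_ex hM hs0.le hs1 (he i hi))
  have hμ0 : 0 < μ := lt_of_lt_of_le (by positivity) h1
  have h2 := Pool.Agent.Work.MP_db9399_en.chern_low hM I (fun i => ({e i, e' i} : Finset J))
    (fun i => b2 (M := M) s (e i) (e' i)) (B := 1) (m := μ) (m0 := μ) (s := μ / 2)
    (fun i _ => b2_dep s _ _) (fun i hi i' hi' hii => by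
      obtain ⟨h3, h4, h5, h6⟩ := hd i hi i' hi' hii
      rw [Finset.disjoint_left]
      intro y hy hy'
      rw [Finset.mem_insert, Finset.mem_singleton] at hy hy'
      rcases hy with rfl | rfl
      · rcases hy' with h | h
        · exact h3 h
        · exact h4 h
      · rcases hy' with h | h
        · exact h5 h
        · exact h6 h) (fun i _ f => b2_nonneg _ _ _ _) (fun i _ f => b2_le _ _ _ _)
    one_pos hμ0 hμ.symm.le hμ.le (by linarith) (by linarith)
  refine (prI_mono ?_).trans (h2.trans ?_)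
  · intro f hf
    linarith
  · apply Real.exp_le_exp.2
    have h3 : (μ / 2) ^ 2 / (4 * 1 * μ) = μ / 16 := by
      field_simp
      ring
    rw [h3]
    linarith

/-- general pairs -/
theorem low2 (hM : 0 < M) {s : ℝ} (hs0 : 0 < s) (hs1 : s ≤ 1) {ι : Type v} (I : Finset ι)
    (e e' : ι → J) (he : ∀ i ∈ I, e i ≠ e' i) {D N t : ℝ} (hD : 0 ≤ D)
    (hm : ∀ y : J, ∀ S ⊆ I, (∀ i ∈ S, e i = y ∨ e' i = y) → (S.card : ℝ) ≤ D)
    (hN : (I.card : ℝ) ≤ N) (hN0 : 0 < D * (2 * N)) (ht : 0 ≤ t) :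
    prI (fun f : J → Fin M => ∑ i ∈ I, b2 s (e i) (e' i) f < s ^ 2 * I.card - t) ≤
      2 * Real.exp (-t ^ 2 / (2 * (D * (2 * N)))) := by
  obtain ⟨F, hF⟩ : ∃ F : (J → Fin M) → ℝ, F = fun f => ∑ i ∈ I, b2 s (e i) (e' i) f := ⟨_, rfl⟩
  have h1 : s ^ 2 * I.card ≤ ex F := by
    rw [hF, Pool.Agent.Work.MP_db9399_en.ex_sum, mul_comm, ← nsmul_eq_mul]
    exact Finset.card_nsmul_le_sum I _ _ (fun i hi => b2_ex hM hs0.le hs1 (he i hi))
  have hav : Pool.Agent.Work.MP_db9399_px.avg F = ex F := rfl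
  obtain ⟨c, hc⟩ : ∃ c : J → ℝ, c = fun y => ((I.filter fun i => e i = y ∨ e' i = y).card : ℝ) :=
    ⟨_, rfl⟩
  have hc0 : ∀ y, 0 ≤ c y := by
    intro y
    rw [hc]
    exact Nat.cast_nonneg _
  have h2 := Pool.Agent.Work.MP_db9399_px.helper31.stmt_PBM M F c (D * (2 * N)) t hM ?_ ?_ hN0 ht
  · refine (prI_mono ?_).trans h2
    intro f hf
    have h3 : F f < s ^ 2 * I.card - t := by
      rw [hF]
      exact hf
    rw [hav]
    have h4 := neg_abs_le (F f - ex F)
    linarith
  · intro y f f' hff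
    have h3 : F f - F f' = ∑ i ∈ I.filter (fun i => e i = y ∨ e' i = y),
        (b2 s (e i) (e' i) f - b2 s (e i) (e' i) f') := by
      rw [hF]
      simp only
      rw [← Finset.sum_sub_distrib]
      symm
      apply Finset.sum_filter_of_ne
      intro i _ hne
      by_contra hcon
      push Not at hcon
      apply hne
      have h5 := b2_dep (M := M) s (e i) (e' i) f f' (by
        intro z hz
        rw [Finset.mem_insert, Finset.mem_singleton] at hz
        rcases hz with rfl | rfl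
        · exact hff _ hcon.1
        · exact hff _ hcon.2)
      rw [h5, sub_self]
    rw [h3, hc]
    refine (Finset.abs_sum_le_sum_abs _ _).trans ?_
    have h6 : ∀ i ∈ I.filter (fun i => e i = y ∨ e' i = y),
        |b2 s (e i) (e' i) f - b2 s (e i) (e' i) f'| ≤ (1 : ℝ) := by
      intro i _
      rw [abs_le]
      have := b2_nonneg s (e i) (e' i) f
      have := b2_nonneg s (e i) (e' i) f'
      have := b2_le s (e i) (e' i) f
      have := b2_le s (e i) (e' i) f'
      constructor <;> linarith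
    refine (Finset.sum_le_sum h6).trans ?_
    rw [Finset.sum_const, nsmul_eq_mul, mul_one]
  · have h3 : ∑ y, c y ≤ 2 * N := by
      have h4 : ∀ y, c y ≤ ((I.filter fun i => e i = y).card : ℝ) +
          ((I.filter fun i => e' i = y).card : ℝ) := by
        intro y
        rw [hc]
        have h5 : (I.filter fun i => e i = y ∨ e' i = y) ⊆
            (I.filter fun i => e i = y) ∪ (I.filter fun i => e' i = y) := by
          intro i hi
          rw [Finset.mem_filter] at hi
          rw [Finset.mem_union, Finset.mem_filter, Finset.mem_filter]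
          tauto
        show ((I.filter fun i => e i = y ∨ e' i = y).card : ℝ) ≤ _
        exact_mod_cast (Finset.card_le_card h5).trans (Finset.card_union_le _ _)
      have h6 : ∀ g : ι → J, ∑ y, ((I.filter fun i => g i = y).card : ℝ) = I.card := by
        intro g
        have h7 := Finset.card_eq_sum_card_fiberwise (s := I) (t := univ) (f := g)
          (fun i _ => Finset.mem_coe.2 (Finset.mem_univ _))
        rw [h7]
        push_cast
        rfl
      refine (Finset.sum_le_sum (fun y _ => h4 y)).trans ?_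
      rw [Finset.sum_add_distrib, h6, h6]
      linarith
    calc ∑ y, c y ^ 2 ≤ ∑ y, D * c y := by
          apply Finset.sum_le_sum
          intro y _
          rw [pow_two]
          apply mul_le_mul_of_nonneg_right _ (hc0 y)
          rw [hc]
          exact hm y _ (Finset.filter_subset _ _) (fun i hi => (Finset.mem_filter.1 hi).2)
      _ = D * ∑ y, c y := by rw [Finset.mul_sum]
      _ ≤ D * (2 * N) := mul_le_mul_of_nonneg_left h3 hD

end Pool.Agent.Work.MP_db9399_cg.helper46
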